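import Mathlib

set_option autoImplicit false

open Finset

namespace Pool.Agent.H.MP_bd9a46_an

def UU (a b : ℝ) : ℝ := b ^ 4 - 16 * a ^ 2 * b ^ 2 - 500 * a ^ 4

lemma one_step (a b d e : ℝ) : UU (a + d) (b + e) ≤ UU a b +
    (-32 * a * b ^ 2 - 2000 * a ^ 3) * d + (4 * b ^ 3 - 32 * a ^ 2 * b) * e +
    16 * b ^ 2 * (e ^ 2 - d ^ 2) + 19 * (e ^ 4 - d ^ 4) := by
  unfold UU
  have h1 := sq_nonneg (b * e - e ^ 2)
  have h2 := sq_nonneg (b * e + 8 * (a * d))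
  have h3 := sq_nonneg (a * d + e ^ 2)
  have h4 := sq_nonneg (b * e + 4 * d ^ 2)
  have h5 := sq_nonneg (5 * (a * d) + 2 * d ^ 2)
  have h6 := sq_nonneg (a * e)
  have h7 := sq_nonneg (d * e)
  have h8 := sq_nonneg (a * d)
  have h9 := sq_nonneg (d ^ 2)
  nlinarith

lemma pair (a b d e : ℝ) : UU (a + d) (b + e) + UU (a + e) (b + d) ≤ 2 * UU a b +
    (-32 * a * b ^ 2 - 2000 * a ^ 3 + 4 * b ^ 3 - 32 * a ^ 2 * b) * (d + e) := by
  linarith [one_step a b d e, one_step a b e d]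

lemma sum_mul_range {E : Type} [AddCommMonoid E] (φ : ℕ → E) (r m : ℕ) :
    ∑ j ∈ range (r * m), φ j = ∑ i ∈ range m, ∑ s ∈ range r, φ (r * i + s) := by
  induction m with
  | zero => simp
  | succ m ih => rw [Nat.mul_succ, sum_range_add, ih, sum_range_succ]

variable {E E' : Type} [AddCommGroup E] [Module ℝ E] [AddCommGroup E'] [Module ℝ E']

noncomputable def av (n : ℕ) (f : ℤ → E) (y : ℤ) : E :=
  ((2 * n : ℕ) : ℝ)⁻¹ • ∑ j ∈ range (2 * n), f ((2 * n : ℕ) * y + j)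

def pi (n : ℕ) (x : ℤ) : ℤ := if x % (2 * n : ℕ) < n then x + n else x - n

noncomputable def GG : ℕ → (ℕ → ℕ) → (ℤ → E) → ℤ → E
  | 0, _, f => f
  | J + 1, n, f => fun x => f (pi (n 0) x) - av (n 0) f (x / (2 * n 0 : ℕ)) +
      GG J (fun k => n (k + 1)) (av (n 0) f) (x / (2 * n 0 : ℕ))

def PP (n : ℕ → ℕ) (J : ℕ) : ℕ := ∏ k ∈ range J, 2 * n k

lemma PP_succ (n : ℕ → ℕ) (J : ℕ) : PP n (J + 1) = 2 * n 0 * PP (fun k => n (k + 1)) J := by
  rw [PP, prod_range_succ', mul_comm]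
  rfl

lemma PP_pos {n : ℕ → ℕ} (hn : ∀ k, 0 < n k) (J : ℕ) : 0 < PP n J :=
  prod_pos fun k _ => by have := hn k; positivity

lemma dm {r : ℕ} (y : ℤ) {s : ℕ} (hs : s < r) : ((r : ℤ) * y + s) / r = y ∧ ((r : ℤ) * y + s) % r = s := by
  have h0 : (r : ℤ) ≠ 0 := by omega
  constructor
  · rw [add_comm, Int.add_mul_ediv_left _ _ h0, Int.ediv_eq_zero_of_lt (by omega) (by omega), zero_add]
  · rw [add_comm, Int.add_mul_emod_self_left, Int.emod_eq_of_lt (by omega) (by omega)]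

lemma block {n : ℕ} (hn : 0 < n) (f : ℤ → ℝ) (y : ℤ) (b : ℝ) :
    ∑ s ∈ range (2 * n), UU (f ((2 * n : ℕ) * y + s))
      (f (pi n ((2 * n : ℕ) * y + s)) - av n f y + b) ≤ (2 * n : ℕ) * UU (av n f y) b := by
  set a := av n f y with ha
  have h1 : ∑ s ∈ range n, ((f ((2 * n : ℕ) * y + s) - a) + (f ((2 * n : ℕ) * y + (n + s : ℕ)) - a))
      = 0 := by
    rw [sum_add_distrib, ← sum_range_add (fun s : ℕ => f ((2 * n : ℕ) * y + s) - a), ← two_mul,
      sum_sub_distrib, sum_const, card_range, nsmul_eq_mul, ha, av, smul_eq_mul,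
      mul_inv_cancel_left₀ (by positivity), sub_self]
  conv_lhs => rw [show range (2 * n) = range (n + n) by rw [two_mul], sum_range_add,
    ← sum_add_distrib]
  have h2 : ∀ s ∈ range n, UU (f ((2 * n : ℕ) * y + s))
      (f (pi n ((2 * n : ℕ) * y + s)) - a + b) + UU (f ((2 * n : ℕ) * y + (n + s : ℕ)))
      (f (pi n ((2 * n : ℕ) * y + (n + s : ℕ))) - a + b) ≤ 2 * UU a b +
      (-32 * a * b ^ 2 - 2000 * a ^ 3 + 4 * b ^ 3 - 32 * a ^ 2 * b) *
      ((f ((2 * n : ℕ) * y + s) - a) + (f ((2 * n : ℕ) * y + (n + s : ℕ)) - a)) := by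
    intro s hs
    rw [mem_range] at hs
    have e1 : pi n ((2 * n : ℕ) * y + s) = (2 * n : ℕ) * y + (n + s : ℕ) := by
      rw [pi, (dm y (show s < 2 * n by omega)).2, if_pos (by omega)]
      push_cast
      ring
    have e2 : pi n ((2 * n : ℕ) * y + (n + s : ℕ)) = (2 * n : ℕ) * y + s := by
      rw [pi, (dm y (show n + s < 2 * n by omega)).2, if_neg (by omega)]
      push_cast
      ring
    rw [e1, e2]
    convert pair a b _ _ using 3 <;> ring
  refine (sum_le_sum h2).trans (le_of_eq ?_)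
  rw [sum_add_distrib, ← mul_sum, ← mul_sum, h1]
  simp
  ring

lemma bell (J : ℕ) : ∀ n : ℕ → ℕ, (∀ k, 0 < n k) → ∀ (f : ℤ → ℝ) (y : ℤ),
    ∑ j ∈ range (PP n J), UU (f (PP n J * y + j)) (GG J n f (PP n J * y + j)) ≤ 0 := by
  induction J with
  | zero =>
    intro n _ f y
    simp only [PP, range_zero, prod_empty, range_one, sum_singleton, GG, UU]
    nlinarith [sq_nonneg (f ((1 : ℕ) * y + (0 : ℕ)) ^ 2)]
  | succ J ih =>
    intro n hn f y
    rw [PP_succ, sum_mul_range]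
    refine le_trans (sum_le_sum fun i _ => ?_) (mul_nonpos_of_nonneg_of_nonpos
      (Nat.cast_nonneg (2 * n 0)) (ih (fun k => n (k + 1)) (fun k => hn _) (av (n 0) f) y) |>.trans'
      (le_of_eq (mul_sum _ _ _).symm))
    refine le_trans (le_of_eq (sum_congr rfl fun s hs => ?_)) (block (hn 0) f _ _)
    have e : ((2 * n 0 * PP (fun k => n (k + 1)) J : ℕ) : ℤ) * y + ((2 * n 0 * i + s : ℕ) : ℤ) =
        (2 * n 0 : ℕ) * (PP (fun k => n (k + 1)) J * y + i) + s := by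
      push_cast
      ring
    rw [e]
    simp only [GG, (dm _ (mem_range.1 hs)).1]

lemma shift_sum (φ : ℤ → ℝ) (c : ℤ) (N : ℕ) :
    ∑ j ∈ range N, φ (c + j) = ∑ x ∈ (range N).image fun j : ℕ => c + j, φ x :=
  (sum_image fun i _ j _ h => by simpa using h).symm

lemma GG_bound (J : ℕ) (n : ℕ → ℕ) (hn : ∀ k, 0 < n k) (f : ℤ → ℝ) (M : ℝ)
    (hM : ∀ S : Finset ℤ, ∑ x ∈ S, f x ^ 4 ≤ M) (S : Finset ℤ) :
    ∑ x ∈ S, GG J n f x ^ 4 ≤ 1256 * M := by
  obtain ⟨R, hR⟩ : ∃ R : ℕ, ∀ x ∈ S, x.natAbs < R :=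
    ⟨S.sup Int.natAbs + 1, fun x hx => Nat.lt_succ_of_le (le_sup hx)⟩
  have hP := PP_pos hn J
  have h1 : ∑ j ∈ range (PP n J * (2 * R)), UU (f (PP n J * (-R) + j))
      (GG J n f (PP n J * (-R) + j)) ≤ 0 := by
    rw [sum_mul_range]
    refine sum_nonpos fun i _ => le_trans (le_of_eq (sum_congr rfl fun s _ => ?_))
      (bell J n hn f (-R + i))
    congr 2 <;> push_cast <;> ring
  rw [shift_sum fun x => UU (f x) (GG J n f x)] at h1
  set B := (range (PP n J * (2 * R))).image fun j : ℕ => (PP n J : ℤ) * (-R) + j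
  have h2 : S ⊆ B := fun x hx => by
    have h3 := hR x hx
    have h4 : (R : ℤ) ≤ PP n J * R := le_mul_of_one_le_left (by positivity) (by omega)
    refine mem_image.2 ⟨(x + PP n J * R).toNat, mem_range.2 ?_, ?_⟩
    · zify
      rw [Int.toNat_of_nonneg (by omega)]
      have : (PP n J : ℤ) * (2 * R) = PP n J * R + PP n J * R := by ring
      omega
    · rw [Int.toNat_of_nonneg (by omega)]
      ring
  have h5 : ∑ x ∈ B, (GG J n f x ^ 4 / 2 - 628 * f x ^ 4) ≤ 0 :=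
    le_trans (sum_le_sum fun x _ => by
      unfold UU
      nlinarith [sq_nonneg (GG J n f x ^ 2 - 16 * f x ^ 2)]) h1
  rw [sum_sub_distrib, ← sum_div, ← mul_sum] at h5
  have h6 := sum_le_sum_of_subset_of_nonneg (f := fun x => GG J n f x ^ 4) h2
    fun _ _ _ => by positivity
  linarith [hM B]

noncomputable def VV (J : ℕ) (n : ℕ → ℕ) (f : ℤ → E) (x : ℤ) : E :=
  (PP n J : ℝ)⁻¹ • ∑ ω ∈ range (PP n J), GG J n (fun t => f (t + ω)) (x - ω)

lemma pow4 {ι : Type} (S : Finset ι) (t : ι → ℝ) :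
    (∑ i ∈ S, t i) ^ 4 ≤ (S.card : ℝ) ^ 3 * ∑ i ∈ S, t i ^ 4 := by
  have h1 := sq_sum_le_card_mul_sum_sq (s := S) (f := t)
  have h2 := sq_sum_le_card_mul_sum_sq (s := S) (f := fun i => t i ^ 2)
  simp only [← pow_mul] at h2
  calc _ = ((∑ i ∈ S, t i) ^ 2) ^ 2 := by ring
    _ ≤ (S.card * ∑ i ∈ S, t i ^ 2) ^ 2 := by gcongr
    _ = (S.card : ℝ) ^ 2 * (∑ i ∈ S, t i ^ 2) ^ 2 := by ring
    _ ≤ (S.card : ℝ) ^ 2 * (S.card * ∑ i ∈ S, t i ^ 4) := by gcongr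
    _ = _ := by ring

lemma VV_bound (J : ℕ) (n : ℕ → ℕ) (hn : ∀ k, 0 < n k) (f : ℤ → ℝ) (M : ℝ)
    (hM : ∀ S : Finset ℤ, ∑ x ∈ S, f x ^ 4 ≤ M) (S : Finset ℤ) :
    ∑ x ∈ S, VV J n f x ^ 4 ≤ 1256 * M := by
  have hP : (0 : ℝ) < PP n J := by exact_mod_cast PP_pos hn J
  have h1 : ∀ ω : ℕ, ∑ x ∈ S, GG J n (fun t => f (t + ω)) (x - ω) ^ 4 ≤ 1256 * M := fun ω => by
    have := GG_bound J n hn (fun t => f (t + ω)) M (fun S => by
      have := hM (S.image fun t => t + ω)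
      rwa [sum_image fun i _ j _ h => by simpa using h] at this) (S.image fun t => t - ω)
    rwa [sum_image fun i _ j _ h => by simpa using h] at this
  calc _ ≤ ∑ x ∈ S, (PP n J : ℝ)⁻¹ * ∑ ω ∈ range (PP n J),
        GG J n (fun t => f (t + ω)) (x - ω) ^ 4 := by
        refine sum_le_sum fun x _ => ?_
        rw [VV, smul_eq_mul, mul_pow]
        refine (mul_le_mul_of_nonneg_left (pow4 _ _) (by positivity)).trans (le_of_eq ?_)
        rw [card_range]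
        field_simp
    _ = (PP n J : ℝ)⁻¹ * ∑ ω ∈ range (PP n J), ∑ x ∈ S,
        GG J n (fun t => f (t + ω)) (x - ω) ^ 4 := by rw [← mul_sum, sum_comm]
    _ ≤ (PP n J : ℝ)⁻¹ * ∑ ω ∈ range (PP n J), 1256 * M := by
        gcongr
        exact h1 _
    _ = _ := by
        rw [sum_const, card_range, nsmul_eq_mul]
        field_simp

lemma av_map (Λ : E →ₗ[ℝ] E') (n : ℕ) (f : ℤ → E) :
    av n (fun t => Λ (f t)) = fun y => Λ (av n f y) := by
  funext y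
  simp only [av, map_smul, map_sum]

lemma GG_map (Λ : E →ₗ[ℝ] E') (J : ℕ) : ∀ (n : ℕ → ℕ) (f : ℤ → E) (x : ℤ),
    GG J n (fun t => Λ (f t)) x = Λ (GG J n f x) := by
  induction J with
  | zero => intro n f x; rfl
  | succ J ih => intro n f x; simp only [GG, av_map, ih, map_add, map_sub]

lemma VV_map (Λ : E →ₗ[ℝ] E') (J : ℕ) (n : ℕ → ℕ) (f : ℤ → E) (x : ℤ) :
    VV J n (fun t => Λ (f t)) x = Λ (VV J n f x) := by
  simp only [VV, map_smul, map_sum]
  congr 2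
  funext ω
  exact GG_map Λ J n (fun t => f (t + ω)) _

lemma VV_cbound (J : ℕ) (n : ℕ → ℕ) (hn : ∀ k, 0 < n k) (f : ℤ → ℂ) (M : ℝ)
    (hM : ∀ S : Finset ℤ, ∑ x ∈ S, ‖f x‖ ^ 4 ≤ M) (S : Finset ℤ) :
    ∑ x ∈ S, ‖VV J n f x‖ ^ 4 ≤ 5024 * M := by
  have k : ∀ (t : ℝ) (z : ℂ), |t| ≤ ‖z‖ → t ^ 4 ≤ ‖z‖ ^ 4 := fun t z h => by
    rw [← Even.pow_abs (by decide)]
    gcongr
  have h1 := VV_bound J n hn (fun t => Complex.reLm (f t)) M (fun S =>
    (sum_le_sum fun x _ => k _ _ (Complex.abs_re_le_norm _)).trans (hM S)) S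
  have h2 := VV_bound J n hn (fun t => Complex.imLm (f t)) M (fun S =>
    (sum_le_sum fun x _ => k _ _ (Complex.abs_im_le_norm _)).trans (hM S)) S
  simp only [VV_map] at h1 h2
  simp only [Complex.reLm_coe, Complex.imLm_coe] at h1 h2
  have h3 : ∑ x ∈ S, ‖VV J n f x‖ ^ 4 ≤
      ∑ x ∈ S, (2 * (VV J n f x).re ^ 4 + 2 * (VV J n f x).im ^ 4) := sum_le_sum fun x _ => by
    rw [show ‖VV J n f x‖ ^ 4 = (‖VV J n f x‖ ^ 2) ^ 2 by ring, Complex.sq_norm,
      Complex.normSq_apply]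
    nlinarith [sq_nonneg ((VV J n f x).re ^ 2 - (VV J n f x).im ^ 2)]
  rw [sum_add_distrib, ← mul_sum, ← mul_sum] at h3
  linarith

omit [Module ℝ E] in
lemma sum_mod {r : ℕ} (ψ : ℤ → E) (x : ℤ) :
    ∑ ω ∈ range r, ψ ((x - ω) % r) = ∑ s ∈ range r, ψ s := by
  have k1 : ∀ a ∈ range r, ((x - a) % r).toNat ∈ range r := fun a ha => by
    have h0 : (0 : ℤ) < r := by have := mem_range.1 ha; omega
    have := Int.emod_lt_of_pos (x - a) h0
    have := Int.emod_nonneg (x - a) h0.ne'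
    rw [mem_range]
    omega
  have k2 : ∀ a ∈ range r, (((x - a) % r).toNat : ℤ) = (x - a) % r := fun a ha =>
    Int.toNat_of_nonneg (Int.emod_nonneg _ (by have := mem_range.1 ha; omega))
  have k3 : ∀ a ∈ range r, ((x - (((x - a) % r).toNat : ℕ)) % r).toNat = a := fun a ha => by
    have := mem_range.1 ha
    rw [k2 a ha, Int.sub_emod, Int.emod_emod_of_dvd _ dvd_rfl, ← Int.sub_emod, sub_sub_cancel,
      Int.emod_eq_of_lt (by omega) (by omega), Int.toNat_natCast]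
  exact sum_nbij' (fun a => ((x - a) % r).toNat) (fun a => ((x - a) % r).toNat) k1 k1 k3 k3
    fun a ha => by rw [k2 a ha]

lemma VV_succ (J : ℕ) (n : ℕ → ℕ) (hn : ∀ k, 0 < n k) (f : ℤ → E) (x : ℤ) :
    VV (J + 1) n f x = ((2 * n 0 : ℕ) : ℝ)⁻¹ • ∑ ω ∈ range (2 * n 0),
      (f (pi (n 0) (x - ω) + ω) - av (n 0) (fun t => f (t + ω)) ((x - ω) / (2 * n 0 : ℕ)) +
        VV J (fun k => n (k + 1)) (av (n 0) fun t => f (t + ω)) ((x - ω) / (2 * n 0 : ℕ))) := by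
  have hP : (0 : ℝ) < PP (fun k => n (k + 1)) J := by exact_mod_cast PP_pos (fun k => hn _) J
  have h0 : ((2 * n 0 : ℕ) : ℤ) ≠ 0 := by have := hn 0; omega
  rw [VV, PP_succ, sum_mul_range, sum_comm, Nat.cast_mul, mul_inv, mul_smul, smul_sum]
  congr 1
  refine sum_congr rfl fun ω _ => ?_
  have e : ∀ i : ℕ, GG (J + 1) n (fun t => f (t + (2 * n 0 * i + ω : ℕ)))
      (x - (2 * n 0 * i + ω : ℕ)) = (f (pi (n 0) (x - ω) + ω) -
        av (n 0) (fun t => f (t + ω)) ((x - ω) / (2 * n 0 : ℕ))) +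
      GG J (fun k => n (k + 1)) (fun t => av (n 0) (fun t => f (t + ω)) (t + i))
        ((x - ω) / (2 * n 0 : ℕ) - i) := by
    intro i
    have e1 : x - (2 * n 0 * i + ω : ℕ) = x - ω + (2 * n 0 : ℕ) * (-i) := by
      push_cast
      ring
    have e2 : av (n 0) (fun t => f (t + (2 * n 0 * i + ω : ℕ))) =
        fun t => av (n 0) (fun t => f (t + ω)) (t + i) := by
      funext t
      simp only [av]
      congr 2
      funext j
      congr 1
      push_cast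
      ring
    simp only [GG, e1, e2, Int.add_mul_ediv_left _ _ h0, pi, Int.add_mul_emod_self_left]
    rw [← sub_eq_add_neg, sub_add_cancel]
    congr 3
    split_ifs <;> push_cast <;> ring
  simp only [e, sum_add_distrib, sum_const, card_range, smul_add, VV]
  rw [← Nat.cast_smul_eq_nsmul ℝ, inv_smul_smul₀ hP.ne']

end Pool.Agent.H.MP_bd9a46_an
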