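import Pool.Agent.H.MP_bd9a46_an.A

set_option autoImplicit false

open Finset
open scoped ComplexConjugate

namespace Pool.Agent.H.MP_bd9a46_an

noncomputable def cc (L : ℕ) (w : ℂ) : ℂ := (L : ℂ)⁻¹ * ∑ j ∈ range L, w ^ j

noncomputable def Ph (L : ℕ) (w : ℂ) : ℝ := ‖cc L w‖ ^ 2

lemma cc_mul (L r : ℕ) (w : ℂ) : cc (L * r) w = cc L w * cc r (w ^ L) := by
  rw [cc, cc, cc, sum_mul_range, mul_mul_mul_comm, ← mul_inv, Nat.cast_mul, sum_mul_sum, sum_comm]
  congr 1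
  refine sum_congr rfl fun i _ => sum_congr rfl fun j _ => ?_
  rw [pow_add, pow_mul, mul_comm]

lemma cc_le (L : ℕ) {w : ℂ} (hw : ‖w‖ = 1) : ‖cc L w‖ ≤ 1 := by
  rcases Nat.eq_zero_or_pos L with rfl | h
  · simp [cc]
  rw [cc, norm_mul, norm_inv, Complex.norm_natCast, inv_mul_le_iff₀ (by positivity), mul_one]
  refine (norm_sum_le _ _).trans (le_of_eq ?_)
  simp [hw]

lemma Ph_nonneg (L : ℕ) (w : ℂ) : 0 ≤ Ph L w := sq_nonneg _

lemma Ph_le (L : ℕ) {w : ℂ} (hw : ‖w‖ = 1) : Ph L w ≤ 1 :=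
  pow_le_one₀ (norm_nonneg _) (cc_le L hw)

lemma Ph_mul (L r : ℕ) (w : ℂ) : Ph (L * r) w = Ph L w * Ph r (w ^ L) := by
  rw [Ph, Ph, Ph, cc_mul, norm_mul, mul_pow]

lemma Ph_mono {L M : ℕ} (h : L ∣ M) {w : ℂ} (hw : ‖w‖ = 1) : Ph M w ≤ Ph L w := by
  obtain ⟨r, rfl⟩ := h
  rw [Ph_mul]
  exact mul_le_of_le_one_right (Ph_nonneg _ _) (Ph_le _ (by simp [hw]))

lemma Ph_one (w : ℂ) : Ph 1 w = 1 := by simp [Ph, cc]

lemma Ph_conj (L : ℕ) (w : ℂ) : Ph L (conj w) = Ph L w := by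
  rw [Ph, Ph, ← Complex.norm_conj (cc L w)]
  simp [cc]

lemma Ph_eq (L : ℕ) (w : ℂ) : (Ph L w : ℂ) = cc L w * cc L (conj w) := by
  rw [Ph, ← Complex.normSq_eq_norm_sq, ← Complex.mul_conj]
  simp [cc]

lemma Ph_cont (L : ℕ) : Continuous (Ph L) := by
  unfold Ph cc
  fun_prop

lemma Ph_two (n : ℕ) {w : ℂ} (hw : ‖w‖ = 1) : 1 - (w ^ n).re ≤ 2 * (1 - Ph (2 * n) w) := by
  have h1 : Ph 2 (w ^ n) = (1 + (w ^ n).re) / 2 := by
    have h2 : ‖w ^ n‖ ^ 2 = 1 := by simp [hw]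
    rw [Complex.sq_norm, Complex.normSq_apply] at h2
    rw [Ph, cc, sum_range_succ, sum_range_one, norm_mul, mul_pow, Complex.sq_norm (_ + _),
      Complex.normSq_apply]
    simp only [Nat.cast_ofNat, norm_inv, Complex.norm_ofNat, pow_zero, pow_one, Complex.add_re,
      Complex.one_re, Complex.add_im, Complex.one_im, zero_add]
    nlinarith
  have h3 : Ph (n * 2) w ≤ Ph 2 (w ^ n) := by
    rw [Ph_mul]
    exact mul_le_of_le_one_left (Ph_nonneg _ _) (Ph_le _ hw)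
  rw [mul_comm 2 n]
  linarith

lemma cc_near (L : ℕ) (hL : 0 < L) {w : ℂ} (hw : ‖w‖ = 1) : ‖1 - cc L w‖ ≤ L * ‖1 - w‖ := by
  have h1 : ∀ j : ℕ, ‖1 - w ^ j‖ ≤ j * ‖1 - w‖ := fun j => by
    induction j with
    | zero => simp
    | succ j ih =>
      rw [show 1 - w ^ (j + 1) = (1 - w ^ j) + w ^ j * (1 - w) by ring]
      refine (norm_add_le _ _).trans ?_
      rw [norm_mul, norm_pow, hw, one_pow]
      push_cast
      linarith
  have h0 : (L : ℂ) ≠ 0 := by exact_mod_cast hL.ne'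
  have e : 1 - cc L w = (L : ℂ)⁻¹ * ∑ j ∈ range L, (1 - w ^ j) := by
    rw [cc, sum_sub_distrib, sum_const, card_range, nsmul_eq_mul]
    field_simp
  rw [e, norm_mul, norm_inv, Complex.norm_natCast, inv_mul_le_iff₀ (by positivity)]
  refine (norm_sum_le _ _).trans ((sum_le_card_nsmul _ _ (L * ‖1 - w‖) fun j hj =>
    (h1 j).trans ?_).trans (by simp))
  gcongr
  exact (mem_range.1 hj).le

lemma Ph_near (L : ℕ) (hL : 0 < L) {w : ℂ} (hw : ‖w‖ = 1) :
    (1 - Ph L w) * ((1000000 * L ^ 2 : ℕ) * Ph (1000000 * L ^ 2) w) ≤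
      (1000000 * L ^ 2 : ℕ) * Ph (1000000 * L ^ 2) w / 400 + 2 / 1000 := by
  set D := 1000000 * L ^ 2 with hD
  have D0 : (0 : ℝ) < D := by positivity
  have h1 := cc_near L hL hw
  have h2 := cc_le L hw
  have h3 : 1 - ‖cc L w‖ ≤ ‖1 - cc L w‖ := by simpa using norm_sub_norm_le 1 (cc L w)
  have h4 : 1 - Ph L w ≤ 1 / 400 + 400 * (L * ‖1 - w‖) ^ 2 := by
    rw [Ph]
    nlinarith [norm_nonneg (cc L w), sq_nonneg (1 / 20 - 20 * (L * ‖1 - w‖))]
  have h5 : ‖1 - w‖ * (D * ‖cc D w‖) ≤ 2 := by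
    have h0 : (D : ℂ) ≠ 0 := by exact_mod_cast D0.ne'
    rw [← Complex.norm_natCast, ← norm_mul, ← norm_mul, cc, mul_inv_cancel_left₀ h0,
      mul_neg_geom_sum]
    refine (norm_sub_le _ _).trans (le_of_eq ?_)
    simp [hw]
    norm_num
  have h6 : 400 * (L * ‖1 - w‖) ^ 2 * (D * Ph D w) ≤ 2 / 1000 := by
    have e : 400 * (L * ‖1 - w‖) ^ 2 * (D * Ph D w) =
        (‖1 - w‖ * (D * ‖cc D w‖)) ^ 2 * (4 / 10000) := by
      rw [Ph, hD]
      push_cast
      ring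
    have := pow_le_pow_left₀ (by positivity) h5 2
    rw [e]
    linarith
  have h7 : 0 ≤ D * Ph D w := mul_nonneg D0.le (Ph_nonneg _ _)
  nlinarith [mul_le_mul_of_nonneg_right h4 h7]

noncomputable def gam (J : ℕ) (n : ℕ → ℕ) (w : ℂ) : ℝ :=
  1 + ∑ k ∈ range J, Ph (PP n k) w * ((w ^ (n k * PP n k)).re - 1)

lemma gam_succ (J : ℕ) (n : ℕ → ℕ) (w : ℂ) : gam (J + 1) n w = (w ^ n 0).re - Ph (2 * n 0) w +
    Ph (2 * n 0) w * gam J (fun k => n (k + 1)) (w ^ (2 * n 0)) := by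
  rw [gam, gam, sum_range_succ', mul_add, mul_sum]
  simp only [PP_succ, Ph_mul, ← pow_mul, mul_assoc]
  have e : ∀ k, n (k + 1) * (2 * (n 0 * PP (fun k => n (k + 1)) k)) =
      2 * (n 0 * (n (k + 1) * PP (fun k => n (k + 1)) k)) := fun k => by ring
  simp only [e]
  simp only [PP, range_zero, prod_empty, Ph_one, mul_one]
  ring

lemma VV_char (J : ℕ) : ∀ n : ℕ → ℕ, (∀ k, 0 < n k) → ∀ w : ℂ, ‖w‖ = 1 → ∀ (c : ℂ) (x : ℤ),
    VV J n (fun t => c * w ^ t) x = gam J n w * (c * w ^ x) := by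
  induction J with
  | zero => intro n _ w _ c x; simp [VV, PP, GG, gam]
  | succ J ih =>
    intro n hn w hw c x
    have w0 : w ≠ 0 := by rintro rfl; simp at hw
    have hinv : conj w = w⁻¹ := (Complex.inv_eq_conj hw).symm
    have e1 : ∀ ω : ℕ, av (n 0) (fun t => c * w ^ (t + ω)) =
        fun y => c * w ^ (ω : ℤ) * cc (2 * n 0) w * (w ^ (2 * n 0)) ^ y := fun ω => by
      funext y
      simp only [av, cc, Complex.real_smul, mul_sum, sum_mul]
      refine sum_congr rfl fun j _ => ?_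
      rw [zpow_add₀ w0, zpow_add₀ w0, zpow_mul, zpow_natCast, zpow_natCast, zpow_natCast]
      push_cast
      ring
    set g := gam J (fun k => n (k + 1)) (w ^ (2 * n 0)) with hg
    set ψ : ℤ → ℂ := fun s => c * w ^ x * ((if s < n 0 then w ^ n 0 else conj (w ^ n 0)) +
      (g - 1) * cc (2 * n 0) w * conj w ^ s) with hψ
    rw [VV_succ J n hn, sum_congr rfl (g := fun ω : ℕ => ψ ((x - ω) % (2 * n 0 : ℕ))), sum_mod]
    · have e2 : ∑ s ∈ range (2 * n 0), (if (s : ℤ) < n 0 then w ^ n 0 else conj (w ^ n 0)) =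
          (2 * n 0 : ℕ) * (w ^ n 0).re := by
        rw [two_mul, sum_range_add, sum_congr rfl fun s hs => if_pos (by
          have := mem_range.1 hs; omega), sum_congr rfl fun s _ => if_neg (by omega),
          ← sum_add_distrib, Complex.add_conj]
        simp
        ring
      have h0 : ((2 * n 0 : ℕ) : ℂ) ≠ 0 := by have := hn 0; exact_mod_cast (by omega)
      have e3 : ∑ s ∈ range (2 * n 0), conj w ^ s = (2 * n 0 : ℕ) * cc (2 * n 0) (conj w) := by
        rw [cc, mul_inv_cancel_left₀ h0]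
      simp only [hψ, ← mul_sum, sum_add_distrib, e2, zpow_natCast, e3, Complex.real_smul]
      rw [gam_succ, ← hg]
      simp only [Complex.ofReal_add, Complex.ofReal_sub, Complex.ofReal_mul, Ph_eq,
        Complex.ofReal_inv, Complex.ofReal_natCast]
      field_simp
      ring
    · intro ω _
      rw [e1, ih _ (fun k => hn _) _ (by simp [hw]), ← hg]
      have e4 : w ^ (ω : ℤ) * (w ^ (2 * n 0)) ^ ((x - ω) / (2 * n 0 : ℕ)) =
          w ^ x * conj w ^ ((x - ω) % (2 * n 0 : ℕ)) := by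
        rw [hinv, inv_zpow', ← zpow_natCast, ← zpow_mul, ← zpow_add₀ w0, ← zpow_add₀ w0]
        congr 1
        linarith [Int.emod_add_mul_ediv (x - ω) (2 * n 0 : ℕ)]
      have e5 : w ^ (pi (n 0) (x - ω) + ω) = w ^ x *
          (if (x - ω) % (2 * n 0 : ℕ) < n 0 then w ^ n 0 else conj (w ^ n 0)) := by
        rw [pi]
        split_ifs
        · rw [← zpow_natCast, ← zpow_add₀ w0]
          congr 1
          ring
        · rw [map_pow, hinv, ← zpow_natCast, inv_zpow', ← zpow_add₀ w0]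
          congr 1
          ring
      simp only [hψ]
      rw [e5]
      linear_combination (c * cc (2 * n 0) w * (g - 1)) * e4

lemma tele {A : ℕ → ℝ} {u : ℕ → ℂ} {α : ℝ} (hα : 0 ≤ α) (h0 : ∀ k, 0 ≤ A k) (h1 : A 0 ≤ 1)
    (hu : ∀ k, ‖u k‖ ≤ α * (A k - A (k + 1))) : Summable u ∧ (∀ J, ‖∑ k ∈ range J, u k‖ ≤ α) ∧
      ‖∑' k, u k‖ ≤ α ∧ ∀ m, ‖∑' k, u k - u m‖ ≤ α * (1 - A m + A (m + 1)) := by
  have k1 : ∀ m J, ∑ k ∈ range J, ‖u (k + m)‖ ≤ α * (A m - A (J + m)) := fun m J => by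
    induction J with
    | zero => simp
    | succ J ih =>
      rw [sum_range_succ, show J + 1 + m = J + m + 1 by ring]
      linarith [hu (J + m)]
  have k2 : ∀ m J, ∑ k ∈ range J, ‖u (k + m)‖ ≤ α * A m := fun m J =>
    (k1 m J).trans (mul_le_mul_of_nonneg_left (by linarith [h0 (J + m)]) hα)
  have s1 : ∀ m, Summable fun k => ‖u (k + m)‖ := fun m =>
    summable_of_sum_range_le (fun _ => norm_nonneg _) (k2 m)
  have s2 : ∀ m, ‖∑' k, u (k + m)‖ ≤ α * A m := fun m => (norm_tsum_le_tsum_norm (s1 m)).trans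
    (Real.tsum_le_of_sum_range_le (fun _ => norm_nonneg _) (k2 m))
  have s : Summable u := (s1 0).of_norm
  have k3 := mul_le_mul_of_nonneg_left h1 hα
  refine ⟨s, fun J => (norm_sum_le _ _).trans ((k2 0 J).trans (by linarith)),
    (s2 0).trans (by linarith), fun m => ?_⟩
  rw [← s.sum_add_tsum_nat_add (m + 1), sum_range_succ, add_right_comm, add_sub_cancel_right]
  have := (norm_sum_le _ _).trans (k1 0 m)
  simp only [add_zero] at this
  linarith [norm_add_le (∑ k ∈ range m, u k) (∑' k, u (k + (m + 1))), s2 (m + 1)]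

lemma rs (r : ℕ) : ∃ p q : ℕ → ℂ, (∀ i, ‖p i‖ = 1) ∧ (∀ i, ‖q i‖ = 1) ∧ ∀ w : ℂ, ‖w‖ = 1 →
    ‖∑ i ∈ range (2 ^ r), p i * w ^ i‖ ^ 2 + ‖∑ i ∈ range (2 ^ r), q i * w ^ i‖ ^ 2 =
      2 * 2 ^ r := by
  induction r with
  | zero => exact ⟨fun _ => 1, fun _ => 1, by simp, by simp, by simp [one_add_one_eq_two]⟩
  | succ r ih =>
    obtain ⟨p, q, hp, hq, h⟩ := ih
    refine ⟨fun i => if i < 2 ^ r then p i else q (i - 2 ^ r),
      fun i => if i < 2 ^ r then p i else -q (i - 2 ^ r), fun i => ?_, fun i => ?_, fun w hw => ?_⟩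
    · dsimp only
      split_ifs <;> simp [hp, hq]
    · dsimp only
      split_ifs <;> simp [hp, hq]
    · have k : ∀ u : ℕ → ℂ, ∑ i ∈ range (2 ^ (r + 1)), (if i < 2 ^ r then p i else
          u (i - 2 ^ r)) * w ^ i = ∑ i ∈ range (2 ^ r), p i * w ^ i +
          w ^ 2 ^ r * ∑ i ∈ range (2 ^ r), u i * w ^ i := fun u => by
        rw [pow_succ 2 r, mul_two, sum_range_add, mul_sum]
        congr 1
        · exact sum_congr rfl fun i hi => by rw [if_pos (mem_range.1 hi)]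
        · refine sum_congr rfl fun i _ => ?_
          rw [if_neg (by omega), Nat.add_sub_cancel_left, pow_add]
          ring
      rw [k q, k fun i => -q i]
      simp only [neg_mul, sum_neg_distrib, mul_neg, ← sub_eq_add_neg]
      have h1 := parallelogram_law_with_norm ℂ (∑ i ∈ range (2 ^ r), p i * w ^ i)
        (w ^ 2 ^ r * ∑ i ∈ range (2 ^ r), q i * w ^ i)
      rw [norm_mul, norm_pow, hw, one_pow, one_mul] at h1
      have := h w hw
      rw [pow_succ (2 : ℝ) r]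
      nlinarith

end Pool.Agent.H.MP_bd9a46_an
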