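import Pool.Agent.H.MP_bd9a46_an.B

set_option autoImplicit false

open Finset MeasureTheory AddCircle Filter Topology
open scoped ComplexConjugate

namespace Pool.Agent.H.MP_bd9a46_an

noncomputable def zz (θ : UnitAddCircle) : ℂ := fourier 1 θ

noncomputable abbrev mu : Measure UnitAddCircle := haarAddCircle

lemma zz_norm (θ : UnitAddCircle) : ‖zz θ‖ = 1 := by rw [zz, fourier_apply, Circle.norm_coe]

lemma zz_ne (θ : UnitAddCircle) : zz θ ≠ 0 := norm_pos_iff.1 (by rw [zz_norm]; exact one_pos)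

lemma zz_cont : Continuous zz := map_continuous (fourier 1)

lemma zz_zpow (θ : UnitAddCircle) (j : ℤ) : zz θ ^ j = fourier j θ := by
  rw [zz, fourier_one, fourier_apply, toCircle_zsmul, Circle.coe_zpow]

lemma zz_conj (θ : UnitAddCircle) : conj (zz θ) = (zz θ)⁻¹ := (Complex.inv_eq_conj (zz_norm θ)).symm

lemma zpow_cont (j : ℤ) : Continuous fun θ => zz θ ^ j := by
  simp only [zz_zpow]
  exact map_continuous _

lemma cint {E : Type} [NormedAddCommGroup E] {f : UnitAddCircle → E} (hf : Continuous f) :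
    Integrable f mu := hf.integrable_of_hasCompactSupport (HasCompactSupport.of_compactSpace f)

lemma imul {F g : UnitAddCircle → ℂ} (hF : Integrable F mu) (hg : Continuous g) :
    Integrable (fun θ => F θ * g θ) mu := by
  obtain ⟨C, hC⟩ := isCompact_univ.exists_bound_of_continuousOn hg.continuousOn
  exact hF.mul_bdd hg.aestronglyMeasurable (Eventually.of_forall fun θ => hC θ trivial)

lemma fc (F : UnitAddCircle → ℂ) (j : ℤ) : fourierCoeff F j = ∫ θ, F θ * zz θ ^ (-j) ∂mu := by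
  simp only [fourierCoeff, zz_zpow, smul_eq_mul, mul_comm]

lemma lin {ι : Type} {F : UnitAddCircle → ℂ} (hF : Integrable F mu) (S : Finset ι) (a : ι → ℂ)
    (e : ι → ℤ) : ∫ θ, F θ * ∑ i ∈ S, a i * zz θ ^ e i ∂mu =
      ∑ i ∈ S, a i * fourierCoeff F (-e i) := by
  simp only [mul_sum, fc, neg_neg, ← integral_const_mul]
  rw [integral_finsetSum S fun i _ => imul hF (g := fun θ => a i * zz θ ^ e i)
    (continuous_const.mul (zpow_cont _))]
  simp only [mul_left_comm]

lemma conv {ι : Type} {F : UnitAddCircle → ℂ} (hF : Integrable F mu) (S : Finset ι) (a : ι → ℂ)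
    (e : ι → ℤ) (x : ℤ) : fourierCoeff (fun θ => F θ * ∑ i ∈ S, a i * zz θ ^ e i) x =
      ∑ i ∈ S, fourierCoeff F (x - e i) * a i := by
  have := lin hF S a fun i => e i - x
  simp only [neg_sub, mul_comm (a _) (fourierCoeff _ _)] at this
  rw [fc, ← this]
  congr 1
  funext θ
  simp only [mul_assoc, sum_mul, sub_eq_add_neg, zpow_add₀ (zz_ne θ)]

lemma fc_one (j : ℤ) : fourierCoeff (fun _ : UnitAddCircle => (1 : ℂ)) j =
    if j = 0 then 1 else 0 := by
  have := congrFun (fourierCoeff_fourier (T := 1) 0) j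
  rw [Pi.single_apply] at this
  rw [← this]
  congr 1
  funext θ
  simp

lemma fc_poly {ι : Type} (S : Finset ι) (a : ι → ℂ) (e : ι → ℤ) (x : ℤ) :
    fourierCoeff (fun θ => ∑ i ∈ S, a i * zz θ ^ e i) x = ∑ i ∈ S, if x = e i then a i else 0 := by
  have := conv (integrable_const (1 : ℂ)) S a e x
  simpa only [one_mul, fc_one, sub_eq_zero, ite_mul, zero_mul] using this

lemma poly_cont {ι : Type} (S : Finset ι) (a : ι → ℂ) (e : ι → ℤ) :
    Continuous fun θ => ∑ i ∈ S, a i * zz θ ^ e i :=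
  continuous_finsetSum _ fun _ _ => continuous_const.mul (zpow_cont _)

lemma parseval {ι : Type} (S : Finset ι) (a : ι → ℂ) (e : ι → ℤ) (he : Function.Injective e) :
    ∫ θ, ‖∑ i ∈ S, a i * zz θ ^ e i‖ ^ 2 ∂mu = ∑ i ∈ S, ‖a i‖ ^ 2 := by
  classical
  have h := lin (cint (poly_cont S a e)) S (fun i => conj (a i)) fun i => -e i
  simp only [neg_neg, fc_poly, he.eq_iff] at h
  rw [sum_congr rfl (g := fun i => ((‖a i‖ ^ 2 : ℝ) : ℂ)) fun i hi => by
    rw [sum_ite_eq, if_pos hi, Complex.conj_mul']; push_cast; rfl] at h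
  rw [← Complex.ofReal_inj, ← integral_complex_ofReal, Complex.ofReal_sum, ← h]
  congr 1
  funext θ
  push_cast
  rw [← Complex.mul_conj']
  simp only [map_sum, map_mul, map_zpow₀, zz_conj, inv_zpow']

lemma Ph_int {L : ℕ} (hL : 0 < L) : ∫ θ, Ph L (zz θ) ∂mu = 1 / L := by
  have h := parseval (range L) (fun _ => (L : ℂ)⁻¹) (fun j => (j : ℤ)) Nat.cast_injective
  simp only [zpow_natCast, ← mul_sum, norm_inv, Complex.norm_natCast, sum_const, card_range,
    nsmul_eq_mul] at h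
  refine h.trans ?_
  field_simp

lemma gam_conj (J : ℕ) (n : ℕ → ℕ) (w : ℂ) : gam J n (conj w) = gam J n w := by
  simp only [gam, Ph_conj, ← map_pow, Complex.conj_re]

lemma gam_cont (J : ℕ) (n : ℕ → ℕ) : Continuous (gam J n) := by
  have := Ph_cont
  unfold gam
  fun_prop

lemma gam_mult (J : ℕ) (n : ℕ → ℕ) (hn : ∀ k, 0 < n k) (S T : Finset ℤ) (a : ℤ → ℂ) :
    ∑ x ∈ T, ‖∑ m ∈ S, fourierCoeff (fun θ => (gam J n (zz θ) : ℂ)) (x - m) * a m‖ ^ 4 ≤
      5024 * ∑ m ∈ S, ‖a m‖ ^ 4 := by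
  let Λ : C(UnitAddCircle, ℂ) →ₗ[ℝ] ℂ :=
    { toFun := fun f => ∫ θ, f θ ∂mu
      map_add' := fun f g => integral_add (cint f.continuous) (cint g.continuous)
      map_smul' := fun c f => integral_smul c f }
  let f : ℤ → C(UnitAddCircle, ℂ) := fun t =>
    ⟨fun θ => (∑ m ∈ S, a m * zz θ ^ m) * zz θ ^ (-t), (poly_cont S a _).mul (zpow_cont _)⟩
  have h1 : ∀ t, Λ (f t) = if t ∈ S then a t else 0 := fun t => by
    rw [← sum_ite_eq S t a, ← fc_poly, fc]
    rfl
  have h2 : ∀ x, Λ (VV J n f x) =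
      ∑ m ∈ S, fourierCoeff (fun θ => (gam J n (zz θ) : ℂ)) (x - m) * a m := fun x => by
    rw [← conv (F := fun θ => (gam J n (zz θ) : ℂ))
      (cint (Complex.continuous_ofReal.comp ((gam_cont J n).comp zz_cont))) S a (fun m => m) x, fc]
    refine integral_congr_ae (Eventually.of_forall fun θ => ?_)
    have k := VV_map (ContinuousMap.evalCLM ℝ θ).toLinearMap J n f x
    have k2 := VV_char J n hn (conj (zz θ)) (by rw [Complex.norm_conj, zz_norm])
      (∑ m ∈ S, a m * zz θ ^ m) x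
    rw [gam_conj] at k2
    simp only [zz_conj, inv_zpow'] at k2
    exact (k.symm.trans k2).trans (mul_assoc _ _ _).symm
  have h3 := VV_cbound J n hn (fun t => Λ (f t)) (∑ m ∈ S, ‖a m‖ ^ 4) (fun U => by
    simp only [h1, apply_ite norm, norm_zero, ite_pow, ne_eq, OfNat.ofNat_ne_zero,
      not_false_eq_true, zero_pow, sum_ite_mem]
    exact sum_le_sum_of_subset_of_nonneg inter_subset_right fun _ _ _ => by positivity) T
  simpa only [VV_map, h2] using h3

lemma lim_coeff {u : ℕ → UnitAddCircle → ℂ} {F : UnitAddCircle → ℂ} {C : ℝ}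
    (hu : ∀ J, Continuous (u J)) (hb : ∀ J θ, ‖u J θ‖ ≤ C)
    (hl : ∀ θ, Tendsto (fun J => u J θ) atTop (𝓝 (F θ))) : AEStronglyMeasurable F mu ∧
    ∀ j, Tendsto (fun J => fourierCoeff (u J) j) atTop (𝓝 (fourierCoeff F j)) := by
  refine ⟨aestronglyMeasurable_of_tendsto_ae atTop (fun J => (hu J).aestronglyMeasurable)
    (Eventually.of_forall hl), fun j => ?_⟩
  simp only [fc]
  exact tendsto_integral_of_dominated_convergence (fun _ => C)
    (fun J => ((hu J).mul (zpow_cont _)).aestronglyMeasurable) (integrable_const _)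
    (fun J => Eventually.of_forall fun θ => by simpa [zz_norm] using hb J θ)
    (Eventually.of_forall fun θ => (hl θ).mul_const _)

def An (F : ℂ → ℂ) : Prop := ∃ P : Polynomial ℂ, ∀ w : ℂ, ‖w‖ = 1 → F w = P.eval w

lemma An.add {F G : ℂ → ℂ} (hF : An F) (hG : An G) : An fun w => F w + G w := by
  obtain ⟨P, hP⟩ := hF
  obtain ⟨Q, hQ⟩ := hG
  exact ⟨P + Q, fun w hw => by simp [hP w hw, hQ w hw]⟩

lemma An.mul {F G : ℂ → ℂ} (hF : An F) (hG : An G) : An fun w => F w * G w := by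
  obtain ⟨P, hP⟩ := hF
  obtain ⟨Q, hQ⟩ := hG
  exact ⟨P * Q, fun w hw => by simp [hP w hw, hQ w hw]⟩

lemma An.const (c : ℂ) : An fun _ => c := ⟨Polynomial.C c, fun w _ => by simp⟩

lemma An.pow (k : ℕ) : An fun w => w ^ k := ⟨Polynomial.X ^ k, fun w _ => by simp⟩

lemma An.congr {F G : ℂ → ℂ} (hF : An F) (h : ∀ w, ‖w‖ = 1 → G w = F w) : An G := by
  obtain ⟨P, hP⟩ := hF
  exact ⟨P, fun w hw => (h w hw).trans (hP w hw)⟩

lemma An.sum {ι : Type} (S : Finset ι) {F : ι → ℂ → ℂ} (h : ∀ i ∈ S, An (F i)) :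
    An fun w => ∑ i ∈ S, F i w := by
  classical
  induction S using Finset.induction_on with
  | empty => exact (An.const 0).congr fun w _ => by simp
  | insert a s ha ih =>
    exact ((h a (mem_insert_self _ _)).add (ih fun i hi => h i (mem_insert_of_mem hi))).congr
      fun w _ => sum_insert ha

lemma An.conj {j b : ℕ} (h : j ≤ b) : An fun w => conj w ^ j * w ^ b := by
  obtain ⟨c, rfl⟩ := Nat.exists_eq_add_of_le h
  refine (An.pow c).congr fun w hw => ?_
  rw [pow_add, ← mul_assoc, ← mul_pow, Complex.conj_mul', hw]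
  simp

lemma An.Ph {L b : ℕ} (h : L ≤ b) : An fun w => Ph L w * w ^ b := by
  refine (((An.const (L : ℂ)⁻¹).mul (An.sum (range L) fun j _ => An.pow j)).mul
    ((An.const (L : ℂ)⁻¹).mul (An.sum (range L) fun j hj =>
      An.conj ((mem_range.1 hj).le.trans h)))).congr fun w _ => ?_
  rw [Ph_eq, cc, cc, ← sum_mul]
  ring

lemma An.coeff {F : ℂ → ℂ} (hF : An F) : (Continuous fun θ => F (zz θ)) ∧
    ∀ j < 0, fourierCoeff (fun θ => F (zz θ)) j = 0 := by
  obtain ⟨P, hP⟩ := hF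
  have e : (fun θ => F (zz θ)) =
      fun θ => ∑ i ∈ range (P.natDegree + 1), P.coeff i * zz θ ^ (i : ℤ) := by
    funext θ
    simp only [hP _ (zz_norm θ), Polynomial.eval_eq_sum_range, zpow_natCast]
  rw [e]
  refine ⟨poly_cont _ _ _, fun j hj => ?_⟩
  rw [fc_poly]
  exact sum_eq_zero fun i _ => if_neg (by omega)

end Pool.Agent.H.MP_bd9a46_an
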