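import Pool.Agent.H.MP_bd9a46_an.C

set_option autoImplicit false

open Finset MeasureTheory AddCircle Filter Topology
open scoped ComplexConjugate

namespace Pool.Agent.H.MP_bd9a46_an

def LL : ℕ → ℕ
  | 0 => 1
  | k + 1 => LL k * (2 * (200000000 * LL k * (2 ^ k + 2)))

def nn (k : ℕ) : ℕ := 200000000 * LL k * (2 ^ k + 2)

def DD (k : ℕ) : ℕ := 1000000 * LL k ^ 2

def NN (k : ℕ) : ℕ := nn k * LL k

lemma LL_pos (k : ℕ) : 0 < LL k := by
  induction k with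
  | zero => exact one_pos
  | succ k ih => rw [LL]; positivity

lemma nn_pos (k : ℕ) : 0 < nn k := by have := LL_pos k; unfold nn; positivity

lemma DD_pos (k : ℕ) : 0 < DD k := by have := LL_pos k; unfold DD; positivity

lemma PP_nn (k : ℕ) : PP nn k = LL k := by
  induction k with
  | zero => rfl
  | succ k ih => rw [PP, prod_range_succ, ← PP, ih]; rfl

lemma NN_eq (k : ℕ) : NN k = 200 * DD k * (2 ^ k + 2) := by unfold NN nn DD; ring

lemma dvd1 (k : ℕ) : LL k ∣ 200 * DD k := ⟨200000000 * LL k, by unfold DD; ring⟩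

lemma dvd2 (k : ℕ) : 200 * DD k ∣ LL (k + 1) := ⟨2 * (2 ^ k + 2), by rw [LL]; unfold DD; ring⟩

noncomputable def pp (k : ℕ) : ℕ → ℂ := (rs k).choose

lemma pp_norm (k i : ℕ) : ‖pp k i‖ = 1 := (rs k).choose_spec.choose_spec.1 i

noncomputable def rr (k : ℕ) : ℝ := √(2 * 2 ^ k)

lemma rr_pos (k : ℕ) : 0 < rr k := Real.sqrt_pos.2 (by positivity)

lemma rr_sq (k : ℕ) : rr k ^ 2 = 2 * 2 ^ k := Real.sq_sqrt (by positivity)

noncomputable def qq (k : ℕ) (w : ℂ) : ℂ :=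
  (rr k : ℂ)⁻¹ * (w ^ DD k * ∑ i ∈ range (2 ^ k), pp k i * (w ^ DD k) ^ i)

lemma qq_le (k : ℕ) {w : ℂ} (hw : ‖w‖ = 1) : ‖qq k w‖ ≤ 1 := by
  have h := (rs k).choose_spec.choose_spec.2.2 (w ^ DD k) (by simp [hw])
  have := rr_pos k
  rw [qq, norm_mul, norm_mul, norm_pow, hw, one_pow, one_mul, norm_inv, Complex.norm_real,
    Real.norm_eq_abs, abs_of_pos this, inv_mul_le_iff₀ this, mul_one]
  exact Real.le_sqrt_of_sq_le (le_of_le_of_eq (le_add_of_nonneg_right (sq_nonneg _)) h)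

lemma qq_cont (k : ℕ) : Continuous (qq k) := by unfold qq; fun_prop

noncomputable def uu (k : ℕ) (w : ℂ) : ℂ :=
  ((Ph (LL k) w : ℂ) - Ph (200 * DD k) w) * conj (qq k w) * w ^ NN k

noncomputable def vv (k : ℕ) (w : ℂ) : ℂ := (Ph (LL k) w * ((w ^ NN k).re - 1) : ℝ)

noncomputable def hh (w : ℂ) : ℂ := ∑' k, uu k w

noncomputable def ph (w : ℂ) : ℂ := 1 + ∑' k, vv k w

lemma uu_le (k : ℕ) {w : ℂ} (hw : ‖w‖ = 1) :
    ‖uu k w‖ ≤ 1 * (Ph (LL k) w - Ph (LL (k + 1)) w) := by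
  have h1 := Ph_mono (dvd1 k) hw
  have h2 := Ph_mono (dvd2 k) hw
  rw [uu, norm_mul, norm_mul, norm_pow, hw, one_pow, mul_one, Complex.norm_conj,
    ← Complex.ofReal_sub, Complex.norm_real, Real.norm_eq_abs, abs_of_nonneg (by linarith)]
  nlinarith [qq_le k hw]

lemma re_le {w : ℂ} (hw : ‖w‖ = 1) (N : ℕ) : |(w ^ N).re| ≤ 1 := by
  simpa [hw] using Complex.abs_re_le_norm (w ^ N)

lemma vv_le (k : ℕ) {w : ℂ} (hw : ‖w‖ = 1) :
    ‖vv k w‖ ≤ 2 * (Ph (LL k) w - Ph (LL (k + 1)) w) := by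
  have h1 := Ph_two (nn k) (w := w ^ LL k) (by simp [hw])
  have h2 := (abs_le.1 (re_le hw (NN k))).2
  have h3 := Ph_nonneg (LL k) w
  rw [← pow_mul, mul_comm (LL k), ← NN] at h1
  rw [vv, Complex.norm_real, Real.norm_eq_abs, abs_of_nonpos (by nlinarith), LL, Ph_mul, ← nn]
  nlinarith

lemma tu {w : ℂ} (hw : ‖w‖ = 1) : Summable (fun k => uu k w) ∧
    (∀ J, ‖∑ k ∈ range J, uu k w‖ ≤ 1) ∧ ‖hh w‖ ≤ 1 ∧
    ∀ m, ‖hh w - uu m w‖ ≤ 1 * (1 - Ph (LL m) w + Ph (LL (m + 1)) w) :=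
  tele (A := fun k => Ph (LL k) w) zero_le_one (fun _ => Ph_nonneg _ _) (Ph_le _ hw)
    fun k => uu_le k hw

lemma tv {w : ℂ} (hw : ‖w‖ = 1) : Summable (fun k => vv k w) ∧
    (∀ J, ‖∑ k ∈ range J, vv k w‖ ≤ 2) ∧ ‖∑' k, vv k w‖ ≤ 2 ∧
    ∀ m, ‖∑' k, vv k w - vv m w‖ ≤ 2 * (1 - Ph (LL m) w + Ph (LL (m + 1)) w) :=
  tele (A := fun k => Ph (LL k) w) zero_le_two (fun _ => Ph_nonneg _ _) (Ph_le _ hw)
    fun k => vv_le k hw

lemma uu_an (k : ℕ) : An (uu k) := by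
  have h1 : An fun w => conj (qq k w) * w ^ (DD k * (2 ^ k + 1)) := by
    refine ((An.const (conj (rr k : ℂ)⁻¹)).mul (An.sum (range (2 ^ k)) fun i hi =>
      (An.const (conj (pp k i))).mul (An.conj (j := DD k * (i + 1)) (b := DD k * (2 ^ k + 1))
        (Nat.mul_le_mul_left _ (by have := mem_range.1 hi; omega))))).congr fun w _ => ?_
    simp only [qq, map_mul, map_sum, map_pow, mul_sum, sum_mul]
    refine sum_congr rfl fun i _ => ?_
    ring
  have h2 : An fun w => ((Ph (LL k) w : ℂ) - Ph (200 * DD k) w) * w ^ (200 * DD k) :=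
    ((An.Ph (Nat.le_of_dvd (by have := DD_pos k; omega) (dvd1 k))).add
      ((An.const (-1)).mul (An.Ph (le_refl (200 * DD k))))).congr fun w _ => by ring
  refine ((h1.mul h2).mul (An.pow (199 * DD k * (2 ^ k + 1)))).congr fun w _ => ?_
  rw [uu, NN_eq, show 200 * DD k * (2 ^ k + 2) =
    DD k * (2 ^ k + 1) + 200 * DD k + 199 * DD k * (2 ^ k + 1) by ring, pow_add, pow_add]
  ring

lemma hh_spec : AEStronglyMeasurable (fun θ => hh (zz θ)) mu ∧
    ∀ j < 0, fourierCoeff (fun θ => hh (zz θ)) j = 0 := by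
  have h := fun J => (An.sum (range J) fun k _ => uu_an k).coeff
  obtain ⟨h1, h2⟩ := lim_coeff (fun J => (h J).1) (fun J θ => (tu (zz_norm θ)).2.1 J)
    fun θ => (tu (zz_norm θ)).1.hasSum.tendsto_sum_nat
  refine ⟨h1, fun j hj => tendsto_nhds_unique (h2 j) ?_⟩
  simp only [(h _).2 j hj]
  exact tendsto_const_nhds

lemma ph_spec : AEStronglyMeasurable (fun θ => ph (zz θ)) mu ∧ ∀ (S T : Finset ℤ) (a : ℤ → ℂ),
    ∑ x ∈ T, ‖∑ m ∈ S, fourierCoeff (fun θ => ph (zz θ)) (x - m) * a m‖ ^ 4 ≤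
      5024 * ∑ m ∈ S, ‖a m‖ ^ 4 := by
  have e : ∀ J w, (gam J nn w : ℂ) = 1 + ∑ k ∈ range J, vv k w := fun J w => by
    simp only [gam, PP_nn, vv, NN, Complex.ofReal_add, Complex.ofReal_one, Complex.ofReal_sum]
  obtain ⟨h1, h2⟩ := lim_coeff (u := fun J θ => (gam J nn (zz θ) : ℂ)) (C := 3)
    (F := fun θ => ph (zz θ))
    (fun J => Complex.continuous_ofReal.comp ((gam_cont J nn).comp zz_cont)) (fun J θ => by
      rw [e]
      refine (norm_add_le _ _).trans ?_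
      rw [norm_one]
      linarith [(tv (zz_norm θ)).2.1 J]) fun θ => by
      simp only [e]
      exact (tv (zz_norm θ)).1.hasSum.tendsto_sum_nat.const_add 1
  refine ⟨h1, fun S T a => le_of_tendsto' (tendsto_finsetSum T fun x _ =>
    (tendsto_finsetSum S fun m _ => (h2 (x - m)).mul_const (a m)).norm.pow 4) fun J => ?_⟩
  exact gam_mult J nn nn_pos S T a

lemma err (k : ℕ) {w : ℂ} (hw : ‖w‖ = 1) : ‖hh w * ph w - (hh w * w ^ NN k / 2 +
    conj (qq k w) / 2)‖ ≤ 5 * (1 - Ph (LL k) w) + 3 * Ph (200 * DD k) w := by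
  have h2 := Ph_mono (dvd2 k) hw
  have h3 := Ph_le (LL k) hw
  have h4 := Ph_nonneg (200 * DD k) w
  have a1 := (tu hw).2.2.1
  have a2 := (tu hw).2.2.2 k
  have a3 := (tv hw).2.2.2 k
  have e0 : w ^ NN k * conj (w ^ NN k) = 1 := by rw [Complex.mul_conj']; simp [hw]
  have e : hh w * ph w - (hh w * w ^ NN k / 2 + conj (qq k w) / 2) =
      hh w * ((∑' k, vv k w - vv k w) + ((Ph (LL k) w - 1 : ℝ) : ℂ) * ((w ^ NN k).re - 1 : ℝ)) +
      ((hh w - uu k w) * conj (w ^ NN k) +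
        ((Ph (LL k) w - 1 - Ph (200 * DD k) w : ℝ) : ℂ) * conj (qq k w)) / 2 := by
    simp only [ph, vv, uu]
    push_cast
    rw [Complex.re_eq_add_conj]
    linear_combination ((Ph (LL k) w - Ph (200 * DD k) w) * conj (qq k w) / 2) * e0
  have b1 : ‖((Ph (LL k) w - 1 : ℝ) : ℂ) * ((w ^ NN k).re - 1 : ℝ)‖ ≤ 2 * (1 - Ph (LL k) w) := by
    have := abs_le.1 (re_le hw (NN k))
    rw [← Complex.ofReal_mul, Complex.norm_real, Real.norm_eq_abs, abs_le]
    constructor <;> nlinarith [this.1, this.2]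
  have b2 : ‖((Ph (LL k) w - 1 - Ph (200 * DD k) w : ℝ) : ℂ) * conj (qq k w)‖ ≤
      1 - Ph (LL k) w + Ph (200 * DD k) w := by
    rw [norm_mul, Complex.norm_conj, Complex.norm_real, Real.norm_eq_abs,
      abs_of_nonpos (by linarith)]
    nlinarith [qq_le k hw]
  have b3 : ‖(hh w - uu k w) * conj (w ^ NN k)‖ = ‖hh w - uu k w‖ := by simp [hw]
  rw [e]
  refine (norm_add_le _ _).trans ?_
  rw [norm_div, norm_mul, Complex.norm_ofNat]
  have b4 := (norm_add_le _ _).trans (add_le_add a3 b1)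
  have b5 := (norm_add_le _ _).trans (add_le_add (b3.trans_le a2) b2)
  have b6 := mul_le_mul a1 b4 (norm_nonneg _) zero_le_one
  linarith

noncomputable def gg (k : ℕ) (w : ℂ) : ℂ := qq k w * (DD k * Ph (DD k) w : ℝ)

lemma gg_cont (k : ℕ) : Continuous fun θ => gg k (zz θ) := by
  have := qq_cont k
  have := Ph_cont (DD k)
  have := zz_cont
  unfold gg
  fun_prop

lemma gg_le (k : ℕ) {w : ℂ} (hw : ‖w‖ = 1) : ‖gg k w‖ ≤ DD k * Ph (DD k) w := by
  have := mul_nonneg (Nat.cast_nonneg (α := ℝ) (DD k)) (Ph_nonneg (DD k) w)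
  rw [gg, norm_mul, Complex.norm_real, Real.norm_eq_abs, abs_of_nonneg this]
  exact mul_le_of_le_one_left this (qq_le k hw)

lemma K_int (k : ℕ) : ∫ θ, DD k * Ph (DD k) (zz θ) ∂mu = 1 := by
  have : (0 : ℝ) < DD k := by exact_mod_cast DD_pos k
  rw [integral_const_mul, Ph_int (DD_pos k)]
  field_simp

lemma BB_eq (k : ℕ) (w : ℂ) : ∑ m ∈ range (DD k * 2 ^ k), pp k (m / DD k) * w ^ ((DD k : ℤ) + m) =
    rr k * DD k * (qq k w * cc (DD k) w) := by
  have h0 : (rr k : ℂ) ≠ 0 := by exact_mod_cast (rr_pos k).ne'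
  have h1 : (DD k : ℂ) ≠ 0 := by exact_mod_cast (DD_pos k).ne'
  rw [qq, cc, mul_mul_mul_comm _ (_ * _), ← mul_inv, mul_inv_cancel_left₀ (mul_ne_zero h0 h1),
    sum_mul_range, mul_assoc, sum_mul_sum, mul_sum]
  refine sum_congr rfl fun i _ => ?_
  rw [mul_sum]
  refine sum_congr rfl fun j hj => ?_
  rw [Nat.mul_add_div (DD_pos k), Nat.div_eq_of_lt (mem_range.1 hj), ← Nat.cast_add, zpow_natCast,
    add_zero]
  ring

lemma gg_int (k : ℕ) {F : UnitAddCircle → ℂ} (hF : Integrable F mu) :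
    ∫ θ, F θ * gg k (zz θ) ∂mu = ((rr k : ℂ) * DD k)⁻¹ * ∑ j ∈ range (DD k),
      ∑ m ∈ range (DD k * 2 ^ k), fourierCoeff F (j - (DD k + m)) * pp k (m / DD k) := by
  have h0 : (rr k : ℂ) ≠ 0 := by exact_mod_cast (rr_pos k).ne'
  have h1 : (DD k : ℂ) ≠ 0 := by exact_mod_cast (DD_pos k).ne'
  have h := lin (imul hF (poly_cont (range (DD k * 2 ^ k)) (fun m => pp k (m / DD k))
    fun m => (DD k : ℤ) + m)) (range (DD k)) (fun _ => 1) fun j => -(j : ℤ)
  simp only [neg_neg, one_mul, conv hF] at h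
  rw [← h, ← integral_const_mul]
  congr 1
  funext θ
  rw [BB_eq, gg]
  push_cast
  rw [Ph_eq, cc.eq_1 _ (conj _)]
  simp only [zz_conj, zpow_neg, zpow_natCast, inv_pow]
  field_simp

lemma T1 (k : ℕ) {F : UnitAddCircle → ℂ} (hF : Integrable F mu)
    (h : ∀ j < 0, fourierCoeff F j = 0) : ∫ θ, F θ * gg k (zz θ) ∂mu = 0 := by
  rw [gg_int k hF, sum_eq_zero fun j hj => sum_eq_zero fun m _ => by
    rw [h _ (by have := mem_range.1 hj; omega), zero_mul], mul_zero]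

lemma T2 (k : ℕ) {F : UnitAddCircle → ℂ} (hF : Integrable F mu) {C : ℝ}
    (h : ∀ (S T : Finset ℤ) (a : ℤ → ℂ),
      ∑ x ∈ T, ‖∑ m ∈ S, fourierCoeff F (x - m) * a m‖ ^ 4 ≤ C * ∑ m ∈ S, ‖a m‖ ^ 4) :
    ‖∫ θ, F θ * gg k (zz θ) ∂mu‖ ^ 4 * (4 * 2 ^ k) ≤ C := by
  have h0 := rr_pos k
  have h1 : (0 : ℝ) < DD k := by exact_mod_cast DD_pos k
  have h2 := h ((range (DD k * 2 ^ k)).image fun m : ℕ => (DD k : ℤ) + m)
    ((range (DD k)).image fun j : ℕ => (j : ℤ)) fun x => pp k ((x - DD k).toNat / DD k)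
  have i1 : Set.InjOn (fun m : ℕ => (DD k : ℤ) + m) (range (DD k * 2 ^ k)) :=
    fun i _ j _ h => by simpa using h
  simp only [sum_image i1, sum_image Nat.cast_injective.injOn, add_sub_cancel_left,
    Int.toNat_natCast, pp_norm, one_pow, sum_const, card_range, nsmul_eq_mul, mul_one] at h2
  have h3 := (pow_le_pow_left₀ (norm_nonneg _) (norm_sum_le (range (DD k)) fun j : ℕ =>
    ∑ m ∈ range (DD k * 2 ^ k), fourierCoeff F (j - (DD k + m)) * pp k (m / DD k)) 4).trans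
    ((pow4 _ _).trans (mul_le_mul_of_nonneg_left h2 (by positivity)))
  rw [gg_int k hF, norm_mul, norm_inv, norm_mul, Complex.norm_real, Complex.norm_natCast,
    Real.norm_eq_abs, abs_of_pos h0, mul_pow]
  rw [card_range] at h3
  calc _ ≤ (rr k * DD k)⁻¹ ^ 4 * (DD k ^ 3 * (C * (DD k * 2 ^ k : ℕ))) * (4 * 2 ^ k) := by gcongr
    _ = C * ((2 * 2 ^ k) ^ 2 / (rr k ^ 2) ^ 2) := by
        push_cast
        field_simp
        ring
    _ = C := by rw [rr_sq, div_self (by positivity), mul_one]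

lemma T3 (k : ℕ) : ∫ θ, conj (qq k (zz θ)) * gg k (zz θ) ∂mu = 1 / 2 := by
  have h0 := rr_pos k
  have h1 : (0 : ℝ) < DD k := by exact_mod_cast DD_pos k
  have h := parseval (range (DD k * 2 ^ k)) (fun m => pp k (m / DD k)) (fun m => (DD k : ℤ) + m)
    fun i j h => by simpa using h
  simp only [BB_eq, pp_norm, one_pow, sum_const, card_range, nsmul_eq_mul, mul_one, norm_mul,
    mul_pow, integral_const_mul, Complex.norm_real, Real.norm_eq_abs, sq_abs, rr_sq,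
    Complex.norm_natCast] at h
  have e : ∀ w, conj (qq k w) * gg k w = (DD k * (‖qq k w‖ ^ 2 * ‖cc (DD k) w‖ ^ 2) : ℝ) := by
    intro w
    rw [gg, ← mul_assoc, Complex.conj_mul', Ph]
    push_cast
    ring
  simp only [e, integral_complex_ofReal, integral_const_mul]
  push_cast at h
  have : DD k * ∫ θ, ‖qq k (zz θ)‖ ^ 2 * ‖cc (DD k) (zz θ)‖ ^ 2 ∂mu = 1 / 2 := by
    field_simp at h
    linarith
  rw [this]
  norm_num

lemma hh_int : Integrable (fun θ => hh (zz θ)) mu :=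
  .of_bound hh_spec.1 1 (Eventually.of_forall fun θ => (tu (zz_norm θ)).2.2.1)

lemma ph_le (θ : UnitAddCircle) : ‖ph (zz θ)‖ ≤ 3 := by
  refine (norm_add_le _ _).trans ?_
  rw [norm_one]
  linarith [(tv (zz_norm θ)).2.2.1]

lemma hp_int : Integrable (fun θ => hh (zz θ) * ph (zz θ)) mu :=
  hh_int.mul_bdd ph_spec.1 (Eventually.of_forall ph_le)

lemma main (k : ℕ) : 1 / 5 ≤ ‖∫ θ, hh (zz θ) * ph (zz θ) * gg k (zz θ) ∂mu‖ := by
  have c1 : Continuous fun θ => zz θ ^ NN k := zz_cont.pow _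
  have c2 : Continuous fun θ => conj (qq k (zz θ)) :=
    Complex.continuous_conj.comp ((qq_cont k).comp zz_cont)
  have c3 : ∀ L, Continuous fun θ => Ph L (zz θ) := fun L => (Ph_cont L).comp zz_cont
  have i1 := imul hh_int c1
  have h1 := T1 k i1 fun j hj => by
    have := conv hh_int {NN k} (fun _ => 1) (fun m => (m : ℤ)) j
    simp only [sum_singleton, one_mul, zpow_natCast, mul_one] at this
    rw [this, hh_spec.2 _ (by omega)]
  have i2 := imul i1 (gg_cont k)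
  have i3 : Integrable (fun θ => conj (qq k (zz θ)) * gg k (zz θ)) mu :=
    cint (c2.mul (gg_cont k))
  have i4 : Integrable (fun θ => hh (zz θ) * zz θ ^ NN k / 2 + conj (qq k (zz θ)) / 2) mu :=
    (i1.div_const 2).add (cint (c2.div_const 2))
  have h2 : ∫ θ, (hh (zz θ) * zz θ ^ NN k / 2 + conj (qq k (zz θ)) / 2) * gg k (zz θ) ∂mu =
      1 / 4 := by
    simp only [add_mul, div_mul_eq_mul_div]
    rw [integral_add (i2.div_const 2) (i3.div_const 2), integral_div, integral_div, h1, T3]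
    norm_num
  have h3 : ‖∫ θ, (hh (zz θ) * ph (zz θ) - (hh (zz θ) * zz θ ^ NN k / 2 +
      conj (qq k (zz θ)) / 2)) * gg k (zz θ) ∂mu‖ ≤ ∫ θ, (DD k * Ph (DD k) (zz θ) / 80 +
      (1 / 100 + 3 * DD k * Ph (200 * DD k) (zz θ))) ∂mu := by
    refine norm_integral_le_of_norm_le (cint (by fun_prop)) (Eventually.of_forall fun θ => ?_)
    have a1 := err k (zz_norm θ)
    have a2 := Ph_near (LL k) (LL_pos k) (zz_norm θ)
    rw [← DD] at a2
    have a3 := mul_le_mul_of_nonneg_left (Ph_le (DD k) (zz_norm θ))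
      (mul_nonneg (Nat.cast_nonneg (α := ℝ) (DD k)) (Ph_nonneg (200 * DD k) (zz θ)))
    rw [norm_mul]
    refine (mul_le_mul a1 (gg_le k (zz_norm θ)) (norm_nonneg _)
      ((norm_nonneg _).trans a1)).trans ?_
    nlinarith
  have D0 : (0 : ℝ) < DD k := by exact_mod_cast DD_pos k
  rw [integral_add (cint (by fun_prop)) (cint (by fun_prop)),
    integral_add (integrable_const _) (cint (by fun_prop)), integral_div, K_int, integral_const_mul,
    Ph_int (by have := DD_pos k; omega), integral_const] at h3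
  simp only [sub_mul] at h3
  rw [integral_sub (imul hp_int (gg_cont k)) (imul i4 (gg_cont k)), h2] at h3
  have e : 3 * (DD k : ℝ) * (1 / (200 * DD k : ℕ)) = 3 / 200 := by
    push_cast
    field_simp
  have h4 := norm_sub_norm_le (1 / 4 : ℂ) (∫ θ, hh (zz θ) * ph (zz θ) * gg k (zz θ) ∂mu)
  rw [norm_sub_rev] at h4
  simp only [probReal_univ, one_smul, e] at h3
  norm_num at h4
  norm_num at h3
  linarith

lemma fin {f ψ : UnitAddCircle → ℂ} (hf : Integrable f mu) (hψ : Integrable ψ mu)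
    (h1 : ∀ j < 0, fourierCoeff f j = 0) {C : ℝ} (h2 : ∀ (S T : Finset ℤ) (a : ℤ → ℂ),
      ∑ x ∈ T, ‖∑ m ∈ S, fourierCoeff ψ (x - m) * a m‖ ^ 4 ≤ C * ∑ m ∈ S, ‖a m‖ ^ 4)
    (h3 : ∀ᵐ θ ∂mu, ‖hh (zz θ) * ph (zz θ) - (f θ + ψ θ)‖ ≤ 1 / 10) : False := by
  obtain ⟨k, hk⟩ := pow_unbounded_of_one_lt (C * 10000) (one_lt_two (α := ℝ))
  have a1 := T2 k hψ h2
  have a2 := main k
  have i1 : Integrable (fun θ => f θ + ψ θ) mu := hf.add hψ
  have a3 : ‖∫ θ, (hh (zz θ) * ph (zz θ) - (f θ + ψ θ)) * gg k (zz θ) ∂mu‖ ≤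
      ∫ θ, DD k * Ph (DD k) (zz θ) / 10 ∂mu := by
    have c3 : Continuous fun θ => Ph (DD k) (zz θ) := (Ph_cont _).comp zz_cont
    refine norm_integral_le_of_norm_le (cint (by fun_prop)) ?_
    filter_upwards [h3] with θ hθ
    rw [norm_mul]
    refine (mul_le_mul hθ (gg_le k (zz_norm θ)) (norm_nonneg _) (by norm_num)).trans ?_
    linarith
  simp only [sub_mul] at a3
  rw [integral_div, K_int, integral_sub (imul hp_int (gg_cont k)) (imul i1 (gg_cont k))] at a3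
  simp only [add_mul] at a3
  rw [integral_add (imul hf (gg_cont k)) (imul hψ (gg_cont k)), T1 k hf h1, zero_add] at a3
  have a4 := norm_sub_norm_le (∫ θ, hh (zz θ) * ph (zz θ) * gg k (zz θ) ∂mu)
    (∫ θ, ψ θ * gg k (zz θ) ∂mu)
  have a5 := pow_le_pow_left₀ (show (0 : ℝ) ≤ 1 / 10 by norm_num)
    (show 1 / 10 ≤ ‖∫ θ, ψ θ * gg k (zz θ) ∂mu‖ by linarith) 4
  have a6 : (0 : ℝ) < 2 ^ k := by positivity
  nlinarith

end Pool.Agent.H.MP_bd9a46_an
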